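import Pool.Agent.TH167.SH.Segre2

set_option autoImplicit false

/-!
# The SHGH conjecture with at most five multiplicities above a bound

Let `m ≥ 1` and `B = 2 ^ 17 (4 m ^ 2 + 8 m + 5) ^ 4`. Let `D = d H - ∑ w i E i`, where at most five
of the `w i` are larger than `m` (or the sum of those larger than `m` is at most
`2 d - (4 m ^ 2 + 8 m + 5)`). At general points, either `D` has the expected dimension, or some
`(-1)`-curve `C` has `C D ≤ -2`, or `D` is exceptional: `h⁰(D) < B`, the arithmetic genus of `D` is
less than `B`, and `D`, after the removal of disjoint `(-1)`-curves, each taken once, and finitely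
many quadratic transformations, becomes a special class of a finite list which depends only on `m`.
-/

namespace Pool.Agent.Results.MP_70e04f_ag.AllButFiveBounded

open MvPolynomial Pool.Agent.TH167 Pool.Agent.TH167.SHDefs

theorem result (r m : ℕ) (hm : 0 < m) (d : ℕ) (w : Fin (r + 4) → ℕ) (hw : FewLarge m d w) :
    ∃ F : MvPolynomial (Fin (r + 4) × Fin 2) ℂ, F ≠ 0 ∧
      ∀ P : Fin (r + 4) → Fin 2 → ℂ,
        MvPolynomial.eval (fun ij : Fin (r + 4) × Fin 2 => P ij.1 ij.2) F ≠ 0 →
          Special P d w →
            (∃ (G : MvPolynomial (Fin 3) ℂ) (e : ℕ) (u : Fin (r + 4) → ℕ),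
              MinusOne P G e u ∧ inter d w e u ≤ -2) ∨
            ExceptionalOne (bd m) P d w := by
  obtain ⟨F, hF, h⟩ := SH.shgh_conv hm d w hw
  exact ⟨F, hF, fun P hP hs => (h P hP).2 hs⟩

end Pool.Agent.Results.MP_70e04f_ag.AllButFiveBounded
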