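import Mathlib
import Pool.Agent.TH885.NW.Final
import Pool.Agent.TH885.NW.Exp2
import Pool.Agent.TH105.NU.All
import Pool.Agent.TH2.NU.Final

set_option autoImplicit false

/-!
# The SHGH conjecture for multiplicities `m` and `m + 1`: every degree

Let `w i ∈ {m, m + 1}` be multiplicities at `n` general points of the complex projective plane,
`m ≥ 1` arbitrary. Then `d H - ∑ w i E i` has `h⁰ = max (0, χ)`
* for EVERY degree `d` if `n` is divisible by four and `n ≥ 144`;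
* for EVERY degree `d` if `n ≥ N0`, `N0` an absolute constant;
* for all degrees `d` but at most one degree `d0` for every `n ≥ 10`, and also for `d0` if `κ d0` is
  outside an explicit interval around zero of length less than two, where
  `κ d = 2 d + 3 - √n - 2 (∑ w i) / √n`.

The points are those of one nonempty open set which does not depend on `d`.
-/

namespace Pool.Agent.Results.MP_70e04f_ag.NearUniformEveryDegree

open MvPolynomial

/-- Forms of degree `d` vanishing to order at least `w i` at the points `(P i 0 : P i 1 : 1)`. -/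
noncomputable def forms {n : ℕ} (P : Fin n → Fin 2 → ℂ) (d : ℕ) (w : Fin n → ℕ) :
    Submodule ℂ (MvPolynomial (Fin 3) ℂ) :=
  homogeneousSubmodule (Fin 3) ℂ d ⊓
    Submodule.restrictScalars ℂ
      (⨅ i : Fin n, (Ideal.span {X 0 - C (P i 0) * X 2, X 1 - C (P i 1) * X 2} :
        Ideal (MvPolynomial (Fin 3) ℂ)) ^ (w i))

/-- `h⁰(d H - ∑ w i E i) = max (0, χ(d H - ∑ w i E i))` on the blow-up of the plane at the points
`P`. -/
def Expected {n : ℕ} (P : Fin n → Fin 2 → ℂ) (d : ℕ) (w : Fin n → ℕ) : Prop :=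
  (Module.finrank ℂ ↥(forms P d w) : ℤ) =
    max 0 (((d + 2).choose 2 : ℤ) - ∑ i, ((w i + 1).choose 2 : ℤ))

/-- For points `P` of a nonempty open set (the complement of a hypersurface `F = 0` of the space of
all `P`), `h⁰ = max (0, χ)` for every degree `d`. -/
def EveryDegree {n : ℕ} (w : Fin n → ℕ) : Prop :=
  ∃ F : MvPolynomial (Fin n × Fin 2) ℂ, F ≠ 0 ∧
    ∀ P : Fin n → Fin 2 → ℂ, eval (fun ij : Fin n × Fin 2 => P ij.1 ij.2) F ≠ 0 →
      ∀ d : ℕ, Expected P d w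

/-- `κ = 2 d + 3 - √n - 2 (∑ w i) / √n`. -/
noncomputable def kappa {n : ℕ} (d : ℕ) (w : Fin n → ℕ) : ℝ :=
  2 * (d : ℝ) + 3 - Real.sqrt n - 2 * (∑ i, (w i : ℝ)) / Real.sqrt n

theorem expected_of {n : ℕ} {P : Fin n → Fin 2 → ℂ} {d : ℕ} {w : Fin n → ℕ}
    (h : Pool.Agent.H932R3.ExpDim ℂ w P d) : Expected P d w := by
  unfold Pool.Agent.H932R3.ExpDim at h
  unfold Expected forms
  rw [h]
  have e : ∑ i, ((w i + 1).choose 2 : ℤ) = ((∑ i, (w i + 1).choose 2 : ℕ) : ℤ) := by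
    push_cast
    rfl
  rw [e]
  omega

theorem every_of {n : ℕ} {w : Fin n → ℕ}
    (h : ∃ F : MvPolynomial (Fin n × Fin 2) ℚ, F ≠ 0 ∧ ∀ (P : Fin n → Fin 2 → ℂ),
      MvPolynomial.aeval (fun ij : Fin n × Fin 2 => P ij.1 ij.2) F ≠ 0 →
      ∀ d : ℕ, Pool.Agent.H932R3.ExpDim ℂ w P d) : EveryDegree w := by
  obtain ⟨F, hF, hF'⟩ := h
  refine ⟨F.map (algebraMap ℚ ℂ), H932R3.map_ne_zero_of hF, fun P hP d => ?_⟩
  rw [MvPolynomial.eval_map] at hP
  exact expected_of (hF' P hP d)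

theorem result :
    (∀ n : ℕ, 4 ∣ n → 144 ≤ n → ∀ m : ℕ, 1 ≤ m → ∀ w : Fin n → ℕ, (∀ i, w i = m ∨ w i = m + 1) →
      EveryDegree w) ∧
    (∃ N0 : ℕ, ∀ n : ℕ, N0 ≤ n → ∀ m : ℕ, 1 ≤ m → ∀ w : Fin n → ℕ, (∀ i, w i = m ∨ w i = m + 1) →
      EveryDegree w) ∧
    (∀ n : ℕ, 10 ≤ n → ∀ m : ℕ, 1 ≤ m → ∀ w : Fin n → ℕ, (∀ i, w i = m ∨ w i = m + 1) →
      ∃ d0 : ℕ, ∃ F : MvPolynomial (Fin n × Fin 2) ℂ, F ≠ 0 ∧
        ∀ P : Fin n → Fin 2 → ℂ, eval (fun ij : Fin n × Fin 2 => P ij.1 ij.2) F ≠ 0 →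
          ∀ d : ℕ, (d ≠ d0 ∨ min (Real.sqrt n - 3) (2 / 3 + 1 / (4 * Real.sqrt n)) < kappa d w ∨
              kappa d w < - min (Real.sqrt n - 3) (2 / 3 + 9 / (4 * Real.sqrt n))) →
            Expected P d w) := by
  refine ⟨?_, ?_, ?_⟩
  · rintro n ⟨N, rfl⟩ hn m hm w hw
    exact every_of (Pool.Agent.TH2.NU.near4 (by omega) hm hw)
  · obtain ⟨N0, h⟩ := Pool.Agent.TH105.NU.expDim_near
    exact ⟨N0, fun n hn m hm w hw => every_of (h n hn m hm w hw)⟩
  · intro n hn m hm w hw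
    obtain ⟨d0, hd0⟩ := TH885.NW.exists_deg hn (Real.sqrt n + 2 * (∑ i, (w i : ℝ)) / Real.sqrt n)
    obtain ⟨F, hF, hF'⟩ := TH885.NW.exp_near2 (L := ℂ) hn hm hw
    refine ⟨d0, F.map (algebraMap ℚ ℂ), H932R3.map_ne_zero_of hF, fun P hP d hd => ?_⟩
    rw [MvPolynomial.eval_map] at hP
    refine expected_of (hF' P hP d ?_)
    rcases hd with hd | hd
    · exact hd0 d hd
    · unfold kappa at hd
      rw [sub_sub] at hd
      exact hd

end Pool.Agent.Results.MP_70e04f_ag.NearUniformEveryDegree
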