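import Mathlib
import Pool.Agent.TH759.EV.Pow

set_option autoImplicit false

/-!
# The SHGH conjecture for `4 ^ (k + 2)`, `9 * 4 ^ (k + 1)`, `13 * 4 ^ k` points of multiplicities
`m` and `m + 1`, all degrees

Let `w i ∈ {m, m + 1}`, `m ≥ 1` arbitrary, be multiplicities at `n = 4 ^ (k + 2)`, `9 * 4 ^ (k + 1)` or
`13 * 4 ^ k` general points of the complex projective plane (`n = 13, 16, 36, 52, 64, ...`). Then
`d H - ∑ w i E i` has `h⁰ = max (0, χ)` for ALL degrees `d`. The points are those of one nonempty open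
set which does not depend on `d`.
-/

namespace Pool.Agent.Results.MP_70e04f_ag.ThirteenPoints

open MvPolynomial

/-- Forms of degree `d` vanishing to order at least `w i` at the points `(P i 0 : P i 1 : 1)`. -/
noncomputable def forms {n : ℕ} (P : Fin n → Fin 2 → ℂ) (d : ℕ) (w : Fin n → ℕ) :
    Submodule ℂ (MvPolynomial (Fin 3) ℂ) :=
  homogeneousSubmodule (Fin 3) ℂ d ⊓
    Submodule.restrictScalars ℂ
      (⨅ i : Fin n, (Ideal.span {X 0 - C (P i 0) * X 2, X 1 - C (P i 1) * X 2} :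
        Ideal (MvPolynomial (Fin 3) ℂ)) ^ (w i))

/-- `h⁰(d H - ∑ w i E i) = max (0, χ(d H - ∑ w i E i))` on the blow-up of the plane at the points
`P`. -/
def Expected {n : ℕ} (P : Fin n → Fin 2 → ℂ) (d : ℕ) (w : Fin n → ℕ) : Prop :=
  (Module.finrank ℂ ↥(forms P d w) : ℤ) =
    max 0 (((d + 2).choose 2 : ℤ) - ∑ i, ((w i + 1).choose 2 : ℤ))

theorem expected_of {n : ℕ} {P : Fin n → Fin 2 → ℂ} {d : ℕ} {w : Fin n → ℕ}
    (h : Pool.Agent.H932R3.ExpDim ℂ w P d) : Expected P d w := by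
  unfold Pool.Agent.H932R3.ExpDim at h
  unfold Expected forms
  rw [h]
  have e : ∑ i, ((w i + 1).choose 2 : ℤ) = ((∑ i, (w i + 1).choose 2 : ℕ) : ℤ) := by
    push_cast
    rfl
  rw [e]
  omega

theorem result (n k m : ℕ) (hn : n = 4 ^ (k + 2) ∨ n = 9 * 4 ^ (k + 1) ∨ n = 13 * 4 ^ k) (hm : 1 ≤ m)
    (w : Fin n → ℕ) (hw : ∀ i, w i = m ∨ w i = m + 1) :
    ∃ F : MvPolynomial (Fin n × Fin 2) ℂ, F ≠ 0 ∧
      ∀ P : Fin n → Fin 2 → ℂ, eval (fun ij : Fin n × Fin 2 => P ij.1 ij.2) F ≠ 0 →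
        ∀ d : ℕ, Expected P d w := by
  obtain ⟨F, hF, hF'⟩ := TH759.EV.expDim_of_NU (TH759.EV.NU_all hn) hm hw
  refine ⟨F.map (algebraMap ℚ ℂ), H932R3.map_ne_zero_of hF, fun P hP d => ?_⟩
  rw [MvPolynomial.eval_map] at hP
  exact expected_of (hF' P hP d)

end Pool.Agent.Results.MP_70e04f_ag.ThirteenPoints
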