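import Pool.Agent.TH102.DP.StripRes

set_option autoImplicit false

/-!
# Arcs of the nef cone of the blow-up of the plane at 12 or more very general points

Let `N₁ ≠ N₂` be two sets of nine of the `n` very general points, `s` the number of points of `N₁`
outside `N₂`, and `F₁`, `F₂` the anticanonical classes of the blow-ups at `N₁` and at `N₂` (so
`F₁ ^ 2 = F₂ ^ 2 = 0`, `F₁ F₂ = s`). Let `G 0, ..., G (J - 1)` be disjoint sets of further points,
with `2 m_j` points in `G j`. For all real `r`, integers `t_j ≥ 0` and `k_j` prime to `t_j` with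
`0 < b_j := t_j r + k_j` and `t_j b_j ≤ m_j` the class
`F₁ + (1 / s) (∑ j, b_j ^ 2 / m_j) F₂ - ∑ j, (b_j / m_j) ∑ i ∈ G j, E_i`,
of square zero, is nonnegative on all curves. A class on which one of them is negative has
`h⁰ = 0 = max (0, χ)`.
-/

namespace Pool.Agent.Results.MP_70e04f_ag.WeightedConicArcs

open Finset Pool.Agent.H350R3

/-- `MultGE a F m`: the form `F` has multiplicity at least `m` at the point `(a 0 : a 1 : 1)`. -/
def MultGE (a : Fin 2 → ℂ) (F : MvPolynomial (Fin 3) ℂ) (m : ℕ) : Prop :=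
  ∀ s ∈ (MvPolynomial.aeval
    ![(MvPolynomial.X 0 : MvPolynomial (Fin 2) ℂ) + MvPolynomial.C (a 0),
      (MvPolynomial.X 1 : MvPolynomial (Fin 2) ℂ) + MvPolynomial.C (a 1),
      (1 : MvPolynomial (Fin 2) ℂ)] F).support, m ≤ s 0 + s 1

/-- The degree of the class `(d; v)` against the anticanonical class `3 H - ∑ i ∈ N, E_i`. -/
def anti {n : ℕ} (d : ℕ) (v : Fin n → ℕ) (N : Finset (Fin n)) : ℝ :=
  3 * (d : ℝ) - ∑ i ∈ N, (v i : ℝ)

/-- Two different sets `N₁`, `N₂` of nine points and disjoint sets `G j` of `2 m_j` further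
points. -/
structure Groups {n J : ℕ} (N₁ N₂ : Finset (Fin n)) (m : Fin J → ℕ)
    (G : Fin J → Finset (Fin n)) : Prop where
  card₁ : N₁.card = 9
  card₂ : N₂.card = 9
  ne : N₁ ≠ N₂
  one_le : 1 ≤ J
  pos : ∀ j, 1 ≤ m j
  card : ∀ j, (G j).card = 2 * m j
  disj : ∀ i j, i ≠ j → Disjoint (G i) (G j)
  disj' : ∀ j, Disjoint (G j) (N₁ ∪ N₂)

/-- The inequalities for the class `(d; v)`. -/
def Arcs {n : ℕ} (d : ℕ) (v : Fin n → ℕ) : Prop :=
  ∀ (J : ℕ) (N₁ N₂ : Finset (Fin n)) (m : Fin J → ℕ) (G : Fin J → Finset (Fin n)),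
    Groups N₁ N₂ m G → ∀ (r : ℝ) (t : Fin J → ℕ) (k : Fin J → ℤ),
      (∀ j, IsCoprime (t j : ℤ) (k j)) → (∀ j, 0 < t j * r + k j) →
      (∀ j, t j * (t j * r + k j) ≤ m j) →
      ∑ j, (t j * r + k j) / m j * ∑ i ∈ G j, (v i : ℝ) ≤
        anti d v N₁ + (∑ j, (t j * r + k j) ^ 2 / m j) / (N₁ \ N₂).card * anti d v N₂

theorem result :
    -- the inequalities for all curves
    (∀ n : ℕ, ∃ f : ℕ → MvPolynomial (Fin n × Fin 2) ℂ, (∀ i, f i ≠ 0) ∧
      ∀ p : Fin n → Fin 2 → ℂ,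
        (∀ i, MvPolynomial.eval (fun q : Fin n × Fin 2 => p q.1 q.2) (f i) ≠ 0) →
        ∀ (F : MvPolynomial (Fin 3) ℂ) (d : ℕ) (v : Fin n → ℕ),
          F ≠ 0 → F.IsHomogeneous d → (∀ i, MultGE (p i) F (v i)) → Arcs d v) ∧
    -- classes which violate them have no positive Euler characteristic
    (∀ (n d : ℕ) (v : Fin n → ℕ), ¬ Arcs d v → (d + 1) * (d + 2) ≤ ∑ i, v i * (v i + 1)) := by
  constructor
  · intro n
    obtain ⟨f, hf, hf'⟩ := Pool.Agent.TH102.DP.very_general n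
    refine ⟨f, hf, fun p hp F d v hF0 hF hm J N₁ N₂ m G hG r t k hc hrk hrm => ?_⟩
    exact Pool.Agent.TH102.DP.arcG_h N₁ N₂ m G hG.card₁ hG.card₂ hG.ne hG.pos hG.card hG.disj
      hG.disj' hG.one_le d v (fun ι _ t c hN φ hφ => hf' p hp ι t c hN φ hφ F d v hF hF0 hm)
      r t k hc hrk hrm
  · intro n d v hcon
    by_contra hlt
    push Not at hlt
    refine hcon fun J N₁ N₂ m G hG r t k hc hrk hrm => ?_
    refine Pool.Agent.TH102.DP.arcG_h N₁ N₂ m G hG.card₁ hG.card₂ hG.ne hG.pos hG.card hG.disj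
      hG.disj' hG.one_le d v (fun ι _ t c hN φ hφ => ?_) r t k hc hrk hrm
    refine Pool.Agent.TH102.DP.nf_le_of_count hN (fun j => v (φ j)) d (lt_of_le_of_lt ?_ hlt)
    refine le_trans (le_of_eq (sum_map univ ⟨φ, hφ⟩ (fun i => v i * (v i + 1))).symm) ?_
    exact sum_le_sum_of_subset (subset_univ _)

end Pool.Agent.Results.MP_70e04f_ag.WeightedConicArcs
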